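import Mathlib

set_option autoImplicit false

namespace TH267.S3

/-- `n` is an element of `S`: `n > 1` and `2 ^ n ≡ 3 (mod n)`. -/
def InS (n : ℕ) : Prop := 1 < n ∧ 2 ^ n ≡ 3 [MOD n]

/-- `p` is an element of `𝒫`: `p` is a prime dividing no element of `S`. -/
def InP (p : ℕ) : Prop := p.Prime ∧ ∀ n : ℕ, InS n → ¬ p ∣ n

theorem InS.not_two_dvd {n : ℕ} (h : InS n) : ¬ 2 ∣ n := by
  intro h2
  have h1 : 2 ^ n ≡ 3 [MOD 2] := h.2.of_dvd h2
  have h3 : 2 ^ n ≡ 0 [MOD 2] := (Nat.modEq_zero_iff_dvd).2 (dvd_pow_self 2 (by have := h.1; omega))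
  have h4 : (3 : ℕ) ≡ 0 [MOD 2] := h1.symm.trans h3
  exact absurd h4 (by decide)

theorem InS.not_three_dvd {n : ℕ} (h : InS n) : ¬ 3 ∣ n := by
  intro h3
  have h1 : 2 ^ n ≡ 3 [MOD 3] := h.2.of_dvd h3
  have h2 : 2 ^ n ≡ 0 [MOD 3] := h1.trans (by decide)
  have h4 : 3 ∣ 2 ^ n := (Nat.modEq_zero_iff_dvd).1 h2
  have h5 : 3 ∣ 2 := Nat.Prime.dvd_of_dvd_pow Nat.prime_three h4
  omega

theorem InS.odd {n : ℕ} (h : InS n) : Odd n := by
  rcases Nat.even_or_odd n with he | ho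
  · exact absurd he.two_dvd h.not_two_dvd
  · exact ho

/-- The Jacobi symbol `(6/m)` is `1` for every divisor `m` of an element of `S`. -/
theorem jacobi_six {n m : ℕ} (h : InS n) (hm : m ∣ n) : jacobiSym 6 m = 1 := by
  have hmo : Odd m := h.odd.of_dvd_nat hm
  have h1 : 2 ^ n ≡ 3 [MOD m] := h.2.of_dvd hm
  have hc : Nat.Coprime 2 m := (Nat.coprime_two_left).2 hmo
  obtain ⟨k, hk⟩ := h.odd
  have h6 : ((6 : ℤ)) % (m : ℤ) = ((2 : ℤ) ^ (k + 1)) ^ 2 % (m : ℤ) := by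
    have : (2 ^ (n + 1) : ℕ) ≡ 6 [MOD m] := by
      have := h1.mul_right 2
      simpa [pow_succ] using this
    have h7 : ((2 ^ (n + 1) : ℕ) : ℤ) ≡ ((6 : ℕ) : ℤ) [ZMOD (m : ℤ)] := (Int.natCast_modEq_iff).2 this
    have h8 : ((2 : ℤ) ^ (k + 1)) ^ 2 = ((2 ^ (n + 1) : ℕ) : ℤ) := by
      subst hk
      push_cast
      ring
    rw [h8]
    exact h7.symm
  rw [jacobiSym.mod_left, h6, ← jacobiSym.mod_left]
  apply jacobiSym.sq_one'
  have := hc.pow_left (k + 1)
  rw [← Int.isCoprime_iff_gcd_eq_one]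
  exact_mod_cast (Nat.isCoprime_iff_coprime.2 this)

/-- Every divisor of an element of `S` is `1`, `5`, `19` or `23` modulo `24`. -/
theorem mod24 {n m : ℕ} (h : InS n) (hm : m ∣ n) :
    m % 24 = 1 ∨ m % 24 = 5 ∨ m % 24 = 19 ∨ m % 24 = 23 := by
  have hmo : Odd m := h.odd.of_dvd_nat hm
  have hm3 : ¬ 3 ∣ m := fun h3 => h.not_three_dvd (h3.trans hm)
  have hJ := jacobi_six h hm
  rw [jacobiSym.mod_right 6 hmo] at hJ
  have e : (4 * (6 : ℤ).natAbs) = 24 := by decide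
  rw [e] at hJ
  have hlt : m % 24 < 24 := Nat.mod_lt _ (by norm_num)
  have h2 : ¬ 2 ∣ m := fun h2 => h.not_two_dvd (h2.trans hm)
  have h7 : jacobiSym 6 7 = -1 := by norm_num
  have h11 : jacobiSym 6 11 = -1 := by norm_num
  have h13 : jacobiSym 6 13 = -1 := by norm_num
  have h17 : jacobiSym 6 17 = -1 := by norm_num
  generalize hr : m % 24 = r at *
  have hr2 : ¬ 2 ∣ r := by omega
  have hr3 : ¬ 3 ∣ r := by omega
  interval_cases r <;> omega

/-- If `m` divides an element `n` of `S` and `2 ^ a ≡ 3 (mod m)`, then `n ≡ a` modulo the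
multiplicative order of `2` modulo `m`. -/
theorem forced {n m a : ℕ} (h : InS n) (hm : m ∣ n) (ha : 2 ^ a ≡ 3 [MOD m]) :
    n ≡ a [MOD orderOf (2 : ZMod m)] := by
  have hmo : Odd m := h.odd.of_dvd_nat hm
  have hc : Nat.Coprime 2 m := (Nat.coprime_two_left).2 hmo
  have h1 : 2 ^ n ≡ 3 [MOD m] := h.2.of_dvd hm
  have h2 : 2 ^ n ≡ 2 ^ a [MOD m] := h1.trans ha.symm
  set u : (ZMod m)ˣ := ZMod.unitOfCoprime 2 hc with hu
  have hu2 : (u : ZMod m) = 2 := by rw [hu, ZMod.coe_unitOfCoprime]; norm_num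
  have h3 : u ^ n = u ^ a := by
    apply Units.ext
    rw [Units.val_pow_eq_pow_val, Units.val_pow_eq_pow_val, hu2]
    have := (ZMod.natCast_eq_natCast_iff (2 ^ n) (2 ^ a) m).2 h2
    push_cast at this
    exact this
  have h4 : n ≡ a [MOD orderOf u] := pow_eq_pow_iff_modEq.1 h3
  rw [← orderOf_units, hu2] at h4
  exact h4

/-- Forced divisors: if `m` divides an element `n` of `S` and `2 ^ a ≡ 3 (mod m)`, then
`gcd (a, ord_m 2)` divides `n`. -/
theorem forced_gcd {n m a : ℕ} (h : InS n) (hm : m ∣ n) (ha : 2 ^ a ≡ 3 [MOD m]) :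
    Nat.gcd a (orderOf (2 : ZMod m)) ∣ n := by
  have h1 := (forced h hm ha).of_dvd (Nat.gcd_dvd_right a (orderOf (2 : ZMod m)))
  have h2 : a ≡ 0 [MOD Nat.gcd a (orderOf (2 : ZMod m))] :=
    (Nat.modEq_zero_iff_dvd).2 (Nat.gcd_dvd_left _ _)
  exact (Nat.modEq_zero_iff_dvd).1 (h1.trans h2)

/-- Compatibility: `gcd (m, ord_m 2)` divides `a`. -/
theorem forced_compat {n m a : ℕ} (h : InS n) (hm : m ∣ n) (ha : 2 ^ a ≡ 3 [MOD m]) :
    Nat.gcd m (orderOf (2 : ZMod m)) ∣ a := by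
  have h1 := (forced h hm ha).of_dvd (Nat.gcd_dvd_right m (orderOf (2 : ZMod m)))
  have h2 : n ≡ 0 [MOD Nat.gcd m (orderOf (2 : ZMod m))] :=
    (Nat.modEq_zero_iff_dvd).2 ((Nat.gcd_dvd_left _ _).trans hm)
  exact (Nat.modEq_zero_iff_dvd).1 (h1.symm.trans h2)

/-- The recursion: membership in `𝒫` is inherited along forced divisors. -/
theorem descent {p q a : ℕ} (hp : p.Prime) (hq : InP q) (ha : 2 ^ a ≡ 3 [MOD p])
    (hqa : q ∣ a) (hqo : q ∣ orderOf (2 : ZMod p)) : InP p := by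
  refine ⟨hp, fun n hn hpn => ?_⟩
  exact hq.2 n hn ((Nat.dvd_gcd hqa hqo).trans (forced_gcd hn hpn ha))

/-- The second-level condition modulo `24`. -/
theorem second {n m a : ℕ} (h : InS n) (hm : m ∣ n) (ha : 2 ^ a ≡ 3 [MOD m])
    (h24 : 24 ∣ orderOf (2 : ZMod m)) :
    a % 24 = 1 ∨ a % 24 = 5 ∨ a % 24 = 19 ∨ a % 24 = 23 := by
  have h1 : n % 24 = a % 24 := (forced h hm ha).of_dvd h24
  rw [← h1]
  exact mod24 h dvd_rfl

theorem classes {p : ℕ} (hp : p.Prime)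
    (h : p % 24 = 7 ∨ p % 24 = 11 ∨ p % 24 = 13 ∨ p % 24 = 17) : InP p := by
  refine ⟨hp, fun n hn hpn => ?_⟩
  have := mod24 hn hpn
  omega

/-- Infinitely many primes of `𝒫` for which `3` is a power of `2` modulo `p`, all of them
`11` or `13` modulo `24`. -/
theorem infinite_family :
    {p : ℕ | InP p ∧ (p % 24 = 11 ∨ p % 24 = 13) ∧ ∃ a : ℕ, 2 ^ a ≡ 3 [MOD p]}.Infinite := by
  rw [Set.infinite_iff_exists_gt]
  intro N
  set k : ℕ := 2 * N.factorial with hk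
  have hk2 : 2 ≤ k := by
    have := N.factorial_pos
    omega
  obtain ⟨j, hj⟩ : ∃ j, k = j + 2 := ⟨k - 2, by omega⟩
  have hpos : 16 ≤ 4 ^ k := by
    rw [hj, pow_add]
    have : 1 ≤ 4 ^ j := Nat.one_le_pow _ _ (by norm_num)
    omega
  set M : ℕ := 4 ^ k - 3 with hM
  have hM3 : M + 3 = 4 ^ k := by omega
  have hM8 : M % 8 = 5 := by
    have : (4 ^ k) % 8 = 0 := by
      rw [hj, pow_add]
      omega
    omega
  have hMo : Odd M := by
    rw [Nat.odd_iff]
    omega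
  have hJM : jacobiSym 2 M = -1 := by
    rw [jacobiSym.at_two hMo]
    have h5 : ((M : ℕ) : ZMod 8) = 5 := by
      have := (ZMod.natCast_eq_natCast_iff M 5 8).2 hM8
      simpa using this
    rw [h5]
    decide
  obtain ⟨p, hp, hpM, hJp⟩ := jacobiSym.eq_neg_one_at_prime_divisor_of_eq_neg_one hJM
  have hpo : Odd p := hMo.of_dvd_nat hpM
  have h3 : 2 ^ (2 * k) ≡ 3 [MOD p] := by
    have h0 : M ≡ 0 [MOD p] := (Nat.modEq_zero_iff_dvd).2 hpM
    have h1 : M + 3 ≡ 0 + 3 [MOD p] := h0.add_right 3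
    rw [hM3] at h1
    rw [pow_mul]
    simpa using h1
  have hp3 : p ≠ 3 := by
    rintro rfl
    have h4 : (3 : ℕ) ∣ 2 ^ (2 * k) := (Nat.modEq_zero_iff_dvd).1 (h3.trans (by decide))
    have h5 : 3 ∣ 2 := Nat.Prime.dvd_of_dvd_pow Nat.prime_three h4
    omega
  have hc : Nat.Coprime 2 p := (Nat.coprime_two_left).2 hpo
  have hJ3 : jacobiSym 3 p = 1 := by
    have h6 : ((3 : ℤ)) % (p : ℤ) = ((2 : ℤ) ^ k) ^ 2 % (p : ℤ) := by
      have h7 : ((2 ^ (2 * k) : ℕ) : ℤ) ≡ ((3 : ℕ) : ℤ) [ZMOD (p : ℤ)] :=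
        (Int.natCast_modEq_iff).2 h3
      have h8 : ((2 : ℤ) ^ k) ^ 2 = ((2 ^ (2 * k) : ℕ) : ℤ) := by
        push_cast
        rw [← pow_mul, mul_comm]
      rw [h8]
      exact h7.symm
    rw [jacobiSym.mod_left, h6, ← jacobiSym.mod_left]
    apply jacobiSym.sq_one'
    have := hc.pow_left k
    rw [← Int.isCoprime_iff_gcd_eq_one]
    exact_mod_cast (Nat.isCoprime_iff_coprime.2 this)
  have hJ6 : jacobiSym 6 p = -1 := by
    have : (6 : ℤ) = 2 * 3 := by norm_num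
    rw [this, jacobiSym.mul_left, hJp, hJ3]
    norm_num
  have hcl : p % 24 = 11 ∨ p % 24 = 13 := by
    have a3 := hJ3
    have a6 := hJ6
    rw [jacobiSym.mod_right 6 hpo] at a6
    rw [jacobiSym.mod_right 3 hpo] at a3
    have e : (4 * (6 : ℤ).natAbs) = 24 := by decide
    have e' : (4 * (3 : ℤ).natAbs) = 12 := by decide
    rw [e] at a6
    rw [e'] at a3
    have hlt : p % 24 < 24 := Nat.mod_lt _ (by norm_num)
    have h2 : ¬ 2 ∣ p := by
      intro h2
      have := (Nat.odd_iff).1 hpo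
      omega
    have h3' : ¬ 3 ∣ p := by
      intro h
      exact hp3 ((Nat.prime_dvd_prime_iff_eq Nat.prime_three hp).1 h).symm
    have h12 : p % 12 = (p % 24) % 12 := by omega
    rw [h12] at a3
    have b1 : jacobiSym 6 1 = 1 := by norm_num
    have b5 : jacobiSym 6 5 = 1 := by norm_num
    have b19 : jacobiSym 6 19 = 1 := by norm_num
    have b23 : jacobiSym 6 23 = 1 := by norm_num
    have c7 : jacobiSym 3 7 = -1 := by norm_num
    have c5 : jacobiSym 3 5 = -1 := by norm_num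
    generalize hr : p % 24 = r at *
    have hr2 : ¬ 2 ∣ r := by omega
    have hr3 : ¬ 3 ∣ r := by omega
    interval_cases r <;> first | omega | (exfalso; norm_num at a6; done) | (exfalso; norm_num at a3; done)
  refine ⟨p, ⟨⟨hp, fun n hn hpn => ?_⟩, hcl, 2 * k, h3⟩, ?_⟩
  · have := jacobi_six hn hpn
    omega
  · by_contra hle
    have hle : p ≤ N := by omega
    have h1 : (p - 1) ∣ N.factorial := by
      apply Nat.dvd_factorial
      · have := hp.two_le
        omega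
      · omega
    obtain ⟨t, ht⟩ := h1
    have h2 : 2 ^ (2 * k) ≡ 1 [MOD p] := by
      have hf : 2 ^ (p - 1) ≡ 1 [MOD p] := by
        have := Nat.ModEq.pow_totient hc
        rwa [Nat.totient_prime hp] at this
      have : 2 * k = (p - 1) * (4 * t) := by
        rw [hk, ht]
        ring
      rw [this, pow_mul]
      simpa using hf.pow (4 * t)
    have h4 : (1 : ℕ) ≡ 3 [MOD p] := h2.symm.trans h3
    have h5 : p ∣ 3 - 1 := (Nat.modEq_iff_dvd' (by norm_num)).1 h4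
    have h6 : p ∣ 2 := by simpa using h5
    have h7 : p = 2 := (Nat.prime_dvd_prime_iff_eq hp Nat.prime_two).1 h6
    rw [h7] at hpo
    exact absurd hpo (by decide)

theorem pow_mod_period {p d n : ℕ} (h : 2 ^ d % p = 1 % p) : 2 ^ n % p = 2 ^ (n % d) % p := by
  conv_lhs => rw [← Nat.div_add_mod n d, pow_add, pow_mul, Nat.mul_mod, Nat.pow_mod, h,
    ← Nat.pow_mod, one_pow, ← Nat.mul_mod, one_mul]

theorem inP43 : InP 43 := by
  refine ⟨by norm_num, fun n hn hpn => ?_⟩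
  have h1 : 2 ^ n % 43 = 3 % 43 := hn.2.of_dvd hpn
  rw [pow_mod_period (d := 14) (by decide)] at h1
  have hlt : n % 14 < 14 := Nat.mod_lt _ (by norm_num)
  generalize n % 14 = r at *
  interval_cases r <;> revert h1 <;> decide

theorem inP73 : InP 73 := by
  refine ⟨by norm_num, fun n hn hpn => ?_⟩
  have h1 : 2 ^ n % 73 = 3 % 73 := hn.2.of_dvd hpn
  rw [pow_mod_period (d := 9) (by decide)] at h1
  have hlt : n % 9 < 9 := Nat.mod_lt _ (by norm_num)
  generalize n % 9 = r at *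
  interval_cases r <;> revert h1 <;> decide

theorem inP67 : InP 67 := by
  refine ⟨by norm_num, fun n hn hpn => ?_⟩
  have h1 : 2 ^ n % 67 = 3 % 67 := hn.2.of_dvd hpn
  rw [pow_mod_period (d := 66) (by norm_num)] at h1
  have hlt : n % 66 < 66 := Nat.mod_lt _ (by norm_num)
  have h3 := hn.not_three_dvd
  have h39 : n % 66 = 39 := by
    generalize n % 66 = r at *
    interval_cases r <;> first | rfl | (exfalso; revert h1; norm_num)
  omega

theorem below100 {p : ℕ} (hp : p.Prime) (h100 : p < 100) :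
    InP p ∨ p = 5 ∨ p = 19 ∨ p = 23 ∨ p = 29 ∨ p = 47 ∨ p = 53 ∨ p = 71 ∨ p = 97 := by
  have h2 : InP 2 := ⟨Nat.prime_two, fun n hn => hn.not_two_dvd⟩
  have h3 : InP 3 := ⟨Nat.prime_three, fun n hn => hn.not_three_dvd⟩
  have h43 := inP43
  have h67 := inP67
  have h73 := inP73
  by_cases hc : p % 24 = 7 ∨ p % 24 = 11 ∨ p % 24 = 13 ∨ p % 24 = 17
  · exact Or.inl (classes hp hc)
  · interval_cases p <;> first
      | (exfalso; revert hp; norm_num; done)
      | (exfalso; omega)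
      | (right; decide)
      | (left; assumption)

end TH267.S3
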